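import Mathlib

set_option autoImplicit false
set_option linter.unusedSectionVars false
set_option linter.unusedVariables false

namespace Pool.Agent.Results.MP_038775_ag.NotExponential

open Polynomial

/-- A `G_a`-action on a `k`-algebra `B`: a `k`-algebra homomorphism `ε : B → B[T]`,
`ε b = ∑ b_i T ^ i`, such that (A1) `b_0 = b` and (A2)
`∑ ε (b_i) U ^ i = ∑ b_i (T + U) ^ i` in `B[T][U]`. In `B[T][U]`, which is
`Polynomial (Polynomial B)`, the variable `T` is `C X` and the variable `U` is `X`. -/
structure GaAction (k B : Type*) [CommRing k] [CommRing B] [Algebra k B] where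
  /-- the algebra homomorphism `ε : B → B[T]` -/
  hom : B →ₐ[k] B[X]
  /-- (A1) -/
  coeff_zero : ∀ b : B, (hom b).coeff 0 = b
  /-- (A2) -/
  add_law : ∀ b : B,
    ((hom b).sum fun i c => C (hom c) * X ^ i : B[X][X]) =
      (hom b).sum fun i c => C (C c) * (C X + X) ^ i

/-- `φ` is exponential: `φ = ε_a`, that is `φ b = (ε b)` evaluated at `T = a`, for some
`G_a`-action `ε` and some element `a` of its invariant ring. -/
def IsExponential {k B : Type*} [CommRing k] [CommRing B] [Algebra k B] (φ : B ≃ₐ[k] B) : Prop :=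
  ∃ (ε : GaAction k B) (a : B), ε.hom a = C a ∧ ∀ b : B, φ b = (ε.hom b).eval a

section General

variable {k B : Type*} [CommRing k] [CommRing B] [Algebra k B] (ε : GaAction k B)

lemma add_law_map (b : B) :
    (ε.hom b).map (ε.hom : B →+* B[X]) =
      ((ε.hom b).map (C : B →+* B[X])).comp (X + C X) := by
  have h := ε.add_law b
  have h1 : (ε.hom b).map (ε.hom : B →+* B[X]) =
      (ε.hom b).sum fun i c => C (ε.hom c) * X ^ i := by
    rw [Polynomial.map, eval₂_eq_sum]
    rfl
  have h2 : ((ε.hom b).map (C : B →+* B[X])).comp (X + C X) =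
      (ε.hom b).sum fun i c => C (C c) * (C X + X) ^ i := by
    rw [Polynomial.comp, eval₂_map, eval₂_eq_sum]
    simp only [RingHom.comp_apply, add_comm]
  rw [h1, h2, h]

lemma hom_injective : Function.Injective (ε.hom : B →+* B[X]) := by
  intro b c h
  have := congrArg (fun q : B[X] => q.coeff 0) h
  simpa [ε.coeff_zero] using this

lemma hom_leadingCoeff [IsDomain B] (b : B) :
    ε.hom (ε.hom b).leadingCoeff = C (ε.hom b).leadingCoeff := by
  have h := congrArg Polynomial.leadingCoeff (add_law_map ε b)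
  rw [leadingCoeff_map_of_injective (hom_injective ε), leadingCoeff_comp (by simp),
    leadingCoeff_map_of_injective C_injective] at h
  simpa using h

lemma hom_eq_C_of_natDegree {b : B} (h : (ε.hom b).natDegree = 0) : ε.hom b = C b := by
  rw [eq_C_of_natDegree_eq_zero h, ε.coeff_zero]

lemma natDegree_mul_zero [IsDomain B] {b c : B} (hb : b ≠ 0) (hc : c ≠ 0)
    (h : ε.hom (b * c) = C (b * c)) : ε.hom b = C b ∧ ε.hom c = C c := by
  have hb' : ε.hom b ≠ 0 := fun h0 => hb (hom_injective ε (by simpa using h0))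
  have hc' : ε.hom c ≠ 0 := fun h0 => hc (hom_injective ε (by simpa using h0))
  have h1 := congrArg natDegree h
  rw [map_mul, natDegree_mul hb' hc', natDegree_C] at h1
  exact ⟨hom_eq_C_of_natDegree ε (by omega), hom_eq_C_of_natDegree ε (by omega)⟩

/-- `ε` commutes with `ε_a`. -/
lemma hom_comm {φ : B →ₐ[k] B} {a : B} (ha : ε.hom a = C a)
    (hφ : ∀ b, φ b = (ε.hom b).eval a) (b : B) :
    ε.hom (φ b) = (ε.hom b).map (φ : B →+* B) := by
  have key := add_law_map ε b
  -- evaluate `U` at `C a`
  have h1 := congrArg (Polynomial.eval (C a)) key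
  -- evaluate `T` at `a`
  have h2 := congrArg (Polynomial.map (evalRingHom a)) key
  have e1 : Polynomial.eval (C a) ((ε.hom b).map (ε.hom : B →+* B[X])) = ε.hom (φ b) := by
    rw [eval_map, hφ, ← ha]
    exact eval₂_at_apply (ε.hom : B →+* B[X]) a
  have e2 : ((ε.hom b).map (ε.hom : B →+* B[X])).map (evalRingHom a) =
      (ε.hom b).map (φ : B →+* B) := by
    rw [Polynomial.map_map]
    congr 1
    ext c
    simp [hφ]
  have e3 : Polynomial.eval (C a) (((ε.hom b).map (C : B →+* B[X])).comp (X + C X)) =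
      (((ε.hom b).map (C : B →+* B[X])).comp (X + C X)).map (evalRingHom a) := by
    rw [eval_comp, eval_map, Polynomial.map_comp, Polynomial.map_map]
    have : ((evalRingHom a).comp (C : B →+* B[X])) = RingHom.id B := by ext c; simp
    rw [this, Polynomial.map_id, Polynomial.comp]
    simp [add_comm]
  rw [← e1, ← e2, h1, h2, e3]

end General

section Example

variable (p : ℕ) [hp : Fact p.Prime] (k : Type*) [Field k] [CharP k p] {σ : Type*} [DecidableEq σ]
  (x y z : σ)


/-- `F = z x + y ^ p - y` -/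
noncomputable def F : MvPolynomial σ k :=
  MvPolynomial.X z * MvPolynomial.X x + MvPolynomial.X y ^ p - MvPolynomial.X y

/-- `U = 1 + z F` -/
noncomputable def U : MvPolynomial σ k := 1 + MvPolynomial.X z * F p k x y z

/-- `W = F - z ^ (p - 1) F ^ p` -/
noncomputable def W : MvPolynomial σ k :=
  F p k x y z * (1 - (MvPolynomial.X z * F p k x y z) ^ (p - 1))

/-- images of the variables under the `c`-th power -/
noncomputable def g (c : ℤ) (i : σ) : MvPolynomial σ k :=
  if i = x then MvPolynomial.X x + (c : MvPolynomial σ k) * W p k x y z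
  else if i = y then MvPolynomial.X y + (c : MvPolynomial σ k) * U p k x y z
  else MvPolynomial.X i

/-- the `c`-th power of the automorphism -/
noncomputable def Phi (c : ℤ) : MvPolynomial σ k →ₐ[k] MvPolynomial σ k :=
  MvPolynomial.aeval (g p k x y z c)

variable {x y z}

lemma Phi_x (c : ℤ) : Phi p k x y z c (MvPolynomial.X x) =
    MvPolynomial.X x + (c : MvPolynomial σ k) * W p k x y z := by
  simp [Phi, g]

lemma Phi_y (hxy : x ≠ y) (c : ℤ) : Phi p k x y z c (MvPolynomial.X y) =
    MvPolynomial.X y + (c : MvPolynomial σ k) * U p k x y z := by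
  simp [Phi, g, hxy.symm]

lemma Phi_other {i : σ} (hx : i ≠ x) (hy : i ≠ y) (c : ℤ) :
    Phi p k x y z c (MvPolynomial.X i) = MvPolynomial.X i := by
  simp [Phi, g, hx, hy]

lemma intCast_pow (c : ℤ) : (c : MvPolynomial σ k) ^ p = (c : MvPolynomial σ k) := by
  have h := map_intCast (frobenius (MvPolynomial σ k) p) c
  rw [frobenius_def] at h
  exact h

lemma zW : MvPolynomial.X z * W p k x y z + U p k x y z ^ p - U p k x y z = 0 := by
  have h1 : (MvPolynomial.X z * F p k x y z) ^ (p - 1) * (MvPolynomial.X z * F p k x y z) =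
      (MvPolynomial.X z * F p k x y z) ^ p := pow_sub_one_mul hp.out.ne_zero _
  have h2 : MvPolynomial.X z * W p k x y z =
      MvPolynomial.X z * F p k x y z - (MvPolynomial.X z * F p k x y z) ^ p := by
    rw [← h1, W]; ring
  rw [h2, U, add_pow_char]
  ring

lemma Phi_F (hxy : x ≠ y) (hxz : x ≠ z) (hyz : y ≠ z) (c : ℤ) :
    Phi p k x y z c (F p k x y z) = F p k x y z := by
  have h0 := zW p k (x := x) (y := y) (z := z)
  conv_lhs => rw [F]
  rw [map_sub, map_add, map_mul, map_pow, Phi_x, Phi_y p k hxy,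
    Phi_other p k hxz.symm hyz.symm, add_pow_char, mul_pow, intCast_pow]
  conv_rhs => rw [F]
  linear_combination (c : MvPolynomial σ k) * h0

lemma Phi_U (hxy : x ≠ y) (hxz : x ≠ z) (hyz : y ≠ z) (c : ℤ) :
    Phi p k x y z c (U p k x y z) = U p k x y z := by
  rw [U, map_add, map_mul, Phi_F p k hxy hxz hyz, Phi_other p k hxz.symm hyz.symm, map_one]

lemma Phi_W (hxy : x ≠ y) (hxz : x ≠ z) (hyz : y ≠ z) (c : ℤ) :
    Phi p k x y z c (W p k x y z) = W p k x y z := by
  rw [W, map_mul, map_sub, map_pow, map_mul, Phi_F p k hxy hxz hyz,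
    Phi_other p k hxz.symm hyz.symm, map_one]

lemma Phi_comp (hxy : x ≠ y) (hxz : x ≠ z) (hyz : y ≠ z) (c d : ℤ) :
    (Phi p k x y z c).comp (Phi p k x y z d) = Phi p k x y z (c + d) := by
  apply MvPolynomial.algHom_ext
  intro i
  rw [AlgHom.comp_apply]
  by_cases hx : i = x
  · subst hx
    rw [Phi_x, map_add, map_mul, Phi_x, Phi_W p k hxy hxz hyz, map_intCast, Phi_x]
    push_cast; ring
  · by_cases hy : i = y
    · subst hy
      rw [Phi_y p k hxy, map_add, map_mul, Phi_y p k hxy, Phi_U p k hxy hxz hyz, map_intCast,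
        Phi_y p k hxy]
      push_cast; ring
    · rw [Phi_other p k hx hy, Phi_other p k hx hy, Phi_other p k hx hy]

lemma Phi_zero : Phi p k x y z 0 = AlgHom.id k (MvPolynomial σ k) := by
  apply MvPolynomial.algHom_ext
  intro i
  by_cases hx : i = x
  · subst hx; rw [Phi_x]; simp
  · by_cases hy : i = y
    · subst hy; simp [Phi, g]; exact fun h => h.symm
    · rw [Phi_other p k hx hy]; simp

/-- The automorphism `φ` : `x ↦ x + F - z ^ (p - 1) F ^ p`, `y ↦ y + 1 + z F`, all other
variables fixed. -/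
noncomputable def phi (hxy : x ≠ y) (hxz : x ≠ z) (hyz : y ≠ z) :
    MvPolynomial σ k ≃ₐ[k] MvPolynomial σ k :=
  AlgEquiv.ofAlgHom (Phi p k x y z 1) (Phi p k x y z (-1))
    (by rw [Phi_comp p k hxy hxz hyz]; exact Phi_zero p k)
    (by rw [Phi_comp p k hxy hxz hyz]; exact Phi_zero p k)

lemma phi_pow (hxy : x ≠ y) (hxz : x ≠ z) (hyz : y ≠ z) (m : ℕ) (b : MvPolynomial σ k) :
    (phi p k hxy hxz hyz ^ m) b = Phi p k x y z m b := by
  induction m generalizing b with
  | zero => simp [Phi_zero]
  | succ m ih =>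
    rw [pow_succ, AlgEquiv.mul_apply, ih]
    have : phi p k hxy hxz hyz b = Phi p k x y z 1 b := rfl
    rw [this, ← AlgHom.comp_apply, Phi_comp p k hxy hxz hyz]
    push_cast; rfl

lemma F_ne_zero (hxy : x ≠ y) (hxz : x ≠ z) (hyz : y ≠ z) : F p k x y z ≠ 0 := by
  intro h
  have h1 := congrArg (MvPolynomial.aeval (fun i : σ => if i = y then (0 : k) else 1)) h
  simp [F, hxy, hxz, hyz.symm, hp.out.ne_zero] at h1

lemma U_eval :
    MvPolynomial.aeval (fun i : σ => if i = z then (0 : MvPolynomial σ k) else MvPolynomial.X i)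
      (U p k x y z) = 1 := by
  simp [U]

lemma U_ne_zero : U p k x y z ≠ 0 := by
  intro h
  have h1 := congrArg (MvPolynomial.aeval (fun i : σ => (0 : k))) h
  simp [U] at h1

lemma phi_pow_p (hxy : x ≠ y) (hxz : x ≠ z) (hyz : y ≠ z) : phi p k hxy hxz hyz ^ p = 1 := by
  ext b
  rw [phi_pow]
  have : Phi p k x y z (p : ℤ) = AlgHom.id k (MvPolynomial σ k) := by
    apply MvPolynomial.algHom_ext
    intro i
    by_cases hx : i = x
    · subst hx; rw [Phi_x]; simp
    · by_cases hy : i = y
      · subst hy; simp [Phi, g]; exact fun h => h.symm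
      · rw [Phi_other p k hx hy]; simp
  rw [this]; simp

lemma orderOf_phi (hxy : x ≠ y) (hxz : x ≠ z) (hyz : y ≠ z) :
    orderOf (phi p k hxy hxz hyz) = p := by
  apply orderOf_eq_prime (phi_pow_p p k hxy hxz hyz)
  intro h
  have h1 : Phi p k x y z 1 (MvPolynomial.X y) = MvPolynomial.X y := by
    have := congrArg (fun f : MvPolynomial σ k ≃ₐ[k] MvPolynomial σ k => f (MvPolynomial.X y)) h
    exact this
  rw [Phi_y p k hxy] at h1
  have h2 : U p k x y z = 0 := by simpa using h1
  exact U_ne_zero p k h2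

lemma neg_one_pow_sub_one : (-1 : MvPolynomial σ k) ^ (p - 1) = 1 := by
  have h1 := intCast_pow p k (σ := σ) (-1)
  push_cast at h1
  have h3 : (-1 : MvPolynomial σ k) ^ (p - 1) * (-1) = (-1) ^ p := pow_sub_one_mul hp.out.ne_zero _
  rw [h1] at h3
  linear_combination -h3

lemma U_dvd_W : U p k x y z ∣ W p k x y z := by
  apply Dvd.dvd.mul_left
  have h := sub_dvd_pow_sub_pow (-1 : MvPolynomial σ k) (MvPolynomial.X z * F p k x y z) (p - 1)
  rw [neg_one_pow_sub_one] at h
  have h2 : (-1 : MvPolynomial σ k) - MvPolynomial.X z * F p k x y z = - U p k x y z := by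
    rw [U]; ring
  rw [h2, neg_dvd] at h
  exact h

lemma U_dvd (hxy : x ≠ y) (b : MvPolynomial σ k) : U p k x y z ∣ Phi p k x y z 1 b - b := by
  induction b using MvPolynomial.induction_on with
  | C a =>
    have : Phi p k x y z 1 (MvPolynomial.C a) = MvPolynomial.C a := by
      simp [Phi]
    rw [this, sub_self]; exact dvd_zero _
  | add b c hb hc =>
    rw [map_add]
    have := dvd_add hb hc
    convert this using 1; ring
  | mul_X b i hb =>
    have hi : U p k x y z ∣ Phi p k x y z 1 (MvPolynomial.X i) - MvPolynomial.X i := by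
      by_cases hx : i = x
      · subst hx; rw [Phi_x]; simpa using U_dvd_W p k
      · by_cases hy : i = y
        · subst hy; rw [Phi_y p k hxy]; simp
        · rw [Phi_other p k hx hy, sub_self]; exact dvd_zero _
    rw [map_mul]
    have h3 : Phi p k x y z 1 b * Phi p k x y z 1 (MvPolynomial.X i) - b * MvPolynomial.X i =
        (Phi p k x y z 1 b - b) * Phi p k x y z 1 (MvPolynomial.X i) +
          b * (Phi p k x y z 1 (MvPolynomial.X i) - MvPolynomial.X i) := by ring
    rw [h3]
    exact dvd_add (hb.mul_right _) (hi.mul_left _)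

/-- The automorphism `φ` is not exponential. -/
theorem phi_not_exponential (hxy : x ≠ y) (hxz : x ≠ z) (hyz : y ≠ z) :
    ¬ IsExponential (phi p k hxy hxz hyz) := by
  rintro ⟨ε, a, ha, hφ⟩
  have hφ' : ∀ b, Phi p k x y z 1 b = (ε.hom b).eval a := hφ
  have hcomm := hom_comm ε ha hφ'
  -- `U` divides `ε U`
  have hU1 : ε.hom (U p k x y z) =
      (ε.hom (MvPolynomial.X y)).map (Phi p k x y z 1 : MvPolynomial σ k →+* MvPolynomial σ k) -
        ε.hom (MvPolynomial.X y) := by
    rw [← hcomm, Phi_y p k hxy, map_add]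
    simp
  have hU2 : ∀ i, U p k x y z ∣ (ε.hom (U p k x y z)).coeff i := by
    intro i
    rw [hU1, coeff_sub, coeff_map]
    exact U_dvd p k hxy _
  -- hence `U` is invariant
  have hUinv : ε.hom (U p k x y z) = C (U p k x y z) := by
    obtain ⟨c, hc⟩ := hU2 (ε.hom (U p k x y z)).natDegree
    have h1 := hom_leadingCoeff ε (U p k x y z)
    have h2 : (ε.hom (U p k x y z)).leadingCoeff = U p k x y z * c := hc
    have h0 : (ε.hom (U p k x y z)).leadingCoeff ≠ 0 := by
      rw [Ne, leadingCoeff_eq_zero]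
      intro h
      exact U_ne_zero p k (hom_injective ε (by simpa using h))
    rw [h2] at h1 h0
    exact (natDegree_mul_zero ε (left_ne_zero_of_mul h0) (right_ne_zero_of_mul h0) h1).1
  -- hence `z` and `F` are invariant
  have hzF : ε.hom (MvPolynomial.X z * F p k x y z) = C (MvPolynomial.X z * F p k x y z) := by
    have h1 : MvPolynomial.X z * F p k x y z = U p k x y z - 1 := by rw [U]; ring
    rw [h1, map_sub, hUinv, map_one, C_sub, C_1]
  obtain ⟨hz, hF⟩ := natDegree_mul_zero ε (MvPolynomial.X_ne_zero z) (F_ne_zero p k hxy hxz hyz) hzF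
  -- reduce modulo `z`
  let π : MvPolynomial σ k →+* MvPolynomial σ k :=
    (MvPolynomial.aeval (R := k) (fun i : σ => if i = z then (0 : MvPolynomial σ k) else MvPolynomial.X i) :
      MvPolynomial σ k →ₐ[k] MvPolynomial σ k)
  have πz : π (MvPolynomial.X z) = 0 := by simp [π]
  have πy : π (MvPolynomial.X y) = MvPolynomial.X y := by simp [π, hyz]
  have hF2 := hF
  rw [F, map_sub, map_add, map_mul, map_pow, hz] at hF2
  have hF3 := congrArg (Polynomial.map π) hF2
  simp only [Polynomial.map_sub, Polynomial.map_add, Polynomial.map_mul, Polynomial.map_pow,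
    map_C, map_sub, map_add, map_mul, map_pow, πz, πy, zero_mul, zero_add, C_0] at hF3
  set v : (MvPolynomial σ k)[X] := (ε.hom (MvPolynomial.X y)).map π with hv
  have : CharP (MvPolynomial σ k)[X] p := inferInstance
  have hw : (v - C (MvPolynomial.X y)) ^ p = v - C (MvPolynomial.X y) := by
    rw [sub_pow_char]
    linear_combination hF3
  have hdeg : (v - C (MvPolynomial.X y)).natDegree = 0 := by
    have h1 := congrArg natDegree hw
    rw [natDegree_pow] at h1
    have h2 := hp.out.two_le
    nlinarith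
  have hv2 : v = C (MvPolynomial.X y) := by
    have h1 := eq_C_of_natDegree_eq_zero hdeg
    have h2 : (v - C (MvPolynomial.X y)).coeff 0 = 0 := by
      rw [coeff_sub, coeff_C_zero, hv, coeff_map, ε.coeff_zero, πy, sub_self]
    rw [h2, C_0] at h1
    exact sub_eq_zero.mp h1
  have h4 : π (Phi p k x y z 1 (MvPolynomial.X y)) = MvPolynomial.X y := by
    rw [hφ', ← eval₂_at_apply, ← eval_map, ← hv, hv2, eval_C]
  rw [Phi_y p k hxy, map_add, πy] at h4
  have h5 : π (U p k x y z) = 1 := U_eval p k
  simp [h5] at h4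

end Example

/-- For every prime `p`, every field `k` of characteristic `p` and every `n ≥ 3` there is an
automorphism of `k[x_1, ..., x_n]` of order `p` which is not exponential. -/
theorem result (p : ℕ) [Fact p.Prime] (k : Type*) [Field k] [CharP k p] (n : ℕ) (hn : 3 ≤ n) :
    ∃ φ : MvPolynomial (Fin n) k ≃ₐ[k] MvPolynomial (Fin n) k,
      orderOf φ = p ∧ ¬ IsExponential φ := by
  have h01 : (⟨0, by omega⟩ : Fin n) ≠ ⟨1, by omega⟩ := by simp
  have h02 : (⟨0, by omega⟩ : Fin n) ≠ ⟨2, by omega⟩ := by simp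
  have h12 : (⟨1, by omega⟩ : Fin n) ≠ ⟨2, by omega⟩ := by simp
  exact ⟨phi p k h01 h02 h12, orderOf_phi p k h01 h02 h12, phi_not_exponential p k h01 h02 h12⟩

end Pool.Agent.Results.MP_038775_ag.NotExponential
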